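import Pool.Agent.Lib.MP_b1a3a4_al.MVS.HO.Iface

/-!
# Module HALF (10.10): `Sig2 χ` gives half-space statements at every good scale
-/

set_option linter.all false

namespace Pool.Agent.Lib.MP_b1a3a4_al.MVS.HO.H48

variable {G : Type} [Group G]

/-- a power of `b` with value in a given interval of length `val χ b` -/
theorem exists_zpow_val (χ : Chr G) {b : G} (hb : 0 < val χ b) (t : ℝ) :
    ∃ a : G, t ≤ val χ a ∧ val χ a ≤ t + val χ b := by
  refine ⟨b ^ ⌈t / val χ b⌉, ?_, ?_⟩
  · rw [val_zpow]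
    have := Int.le_ceil (t / val χ b)
    rwa [div_le_iff₀ hb] at this
  · rw [val_zpow]
    have := (Int.ceil_lt_add_one (t / val χ b)).le
    calc (⌈t / val χ b⌉ : ℝ) * val χ b ≤ (t / val χ b + 1) * val χ b :=
          mul_le_mul_of_nonneg_right this hb.le
      _ = t + val χ b := by field_simp

theorem exists_bound (χ : Chr G) {F : Set G} (hF : F.Finite) :
    ∃ d : ℝ, 0 ≤ d ∧ ∀ f ∈ F, -d ≤ val χ f := by
  obtain ⟨d, hd⟩ := (hF.image (fun f => -val χ f)).bddAbove
  refine ⟨max 0 d, le_max_left _ _, fun f hf => ?_⟩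
  have := hd ⟨f, hf, rfl⟩
  have h2 := le_max_right 0 d
  simp only at this
  linarith

theorem conn_translate {E Z Z' : Set G} {u v : G} (h : Conn E Z u v) (a : G)
    (hZ : ∀ x ∈ Z, a * x ∈ Z') : Conn E Z' (a * u) (a * v) := by
  induction h with
  | refl => exact Relation.ReflTransGen.refl
  | tail _ hbc ih =>
    refine Relation.ReflTransGen.tail ih ⟨hZ _ hbc.1, hZ _ hbc.2.1, ?_⟩
    simpa [mul_assoc] using hbc.2.2

/-- HALF (10.10) -/
theorem half (h1 : ExtStatement) : HalfStatement := by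
  intro G _ χ E hE hb hS
  obtain ⟨b, hb⟩ := hb
  obtain ⟨⟨X, hX, hconn⟩, hcsc⟩ := hS
  -- part 1: X-steps are replaced by E-words
  choose w hw hwp using hE.conn
  obtain ⟨d1, hd1, hd1'⟩ : ∃ d : ℝ, 0 ≤ d ∧ ∀ x ∈ X, ∀ u, u <+: w x → -d ≤ val χ u.prod := by
    have hfin : (⋃ x ∈ X, (fun u : List G => u.prod) '' {u | u <+: w x}).Finite := by
      refine hX.biUnion fun x _ => Set.Finite.image _ ?_
      have : {u | u <+: w x} = {u | u ∈ (w x).inits} := by
        ext u
        simp [List.mem_inits]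
      rw [this]
      exact List.finite_toSet _
    obtain ⟨d, hd, hd'⟩ := exists_bound χ hfin
    refine ⟨d, hd, fun x hx u hu => hd' _ ?_⟩
    exact Set.mem_biUnion hx ⟨u, hu, rfl⟩
  have step : ∀ u v : G, u ∈ up (val χ) 0 → u⁻¹ * v ∈ X → Conn E (up (val χ) (-d1)) u v := by
    intro u v hu huv
    have hu' : (0 : ℝ) ≤ val χ u := hu
    have hmem : u ∈ up (val χ) (-d1) := by
      show -d1 ≤ val χ u
      linarith
    rw [conn_iff hmem]
    refine ⟨w (u⁻¹ * v), ?_, by rw [hwp]; simp⟩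
    rw [inPath_iff]
    refine ⟨hw _, fun p hp => ?_⟩
    show -d1 ≤ val χ (u * p.prod)
    rw [val_mul]
    have := hd1' _ huv p hp
    linarith
  have conn0 : ∀ u v : G, u ∈ up (val χ) 0 → v ∈ up (val χ) 0 →
      Conn E (up (val χ) (-d1)) u v := by
    intro u v hu hv
    have h := hconn u hu v hv
    induction h with
    | refl => exact Relation.ReflTransGen.refl
    | tail _ hbc ih => exact (ih hbc.1).trans (step _ _ hbc.1 hbc.2.2)
  -- part 2: cocycles
  obtain ⟨E', hE', hcob⟩ := hcsc E hE.fin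
  obtain ⟨F, hF, hF1, hext⟩ := h1 G E hE E' hE'
  obtain ⟨d2, hd2, hd2'⟩ := exists_bound χ hF
  refine ⟨max d1 d2 + val χ b, ?_, ?_⟩
  · intro h u v hu hv
    obtain ⟨a, ha1, ha2⟩ := exists_zpow_val χ hb (h + d1)
    have hm := le_max_left d1 d2
    have hu0 : a⁻¹ * u ∈ up (val χ) 0 := by
      show (0 : ℝ) ≤ val χ (a⁻¹ * u)
      rw [val_mul, val_inv]
      linarith
    have hv0 : a⁻¹ * v ∈ up (val χ) 0 := by
      show (0 : ℝ) ≤ val χ (a⁻¹ * v)
      rw [val_mul, val_inv]
      linarith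
    have hc := conn_translate (Z' := up (val χ) h) (conn0 _ _ hu0 hv0) a (by
      intro x hx
      have hx' : -d1 ≤ val χ x := hx
      show h ≤ val χ (a * x)
      rw [val_mul]
      linarith)
    simpa using hc
  · intro h H _ c hc
    obtain ⟨a, ha1, ha2⟩ := exists_zpow_val χ hb (h + d2)
    have hm := le_max_right d1 d2
    obtain ⟨c₁, hc₁, hcc⟩ := hext _ H c hc
    have hsub : ∀ g : G, h + d2 ≤ val χ g → ∀ f ∈ F, g * f ∈ up (val χ) h := by
      intro g hg f hf
      show h ≤ val χ (g * f)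
      rw [val_mul]
      have := hd2' f hf
      linarith
    have hc' : Cocyc E' (up (val χ) 0) (fun x y => c₁ (a * x) (a * y)) := by
      refine hc₁.translate a fun x hx => ?_
      have hx' : (0 : ℝ) ≤ val χ x := hx
      refine hsub _ ?_
      rw [val_mul]
      linarith
    obtain ⟨f, hf⟩ := hcob H _ hc'
    refine ⟨fun g => f (a⁻¹ * g), fun g hg k hk hgk => ?_⟩
    have hg' : h + (max d1 d2 + val χ b) ≤ val χ g := hg
    have hk' : h + (max d1 d2 + val χ b) ≤ val χ k := hk
    have e1 := hcc g k (hsub g (by linarith)) (hsub k (by linarith)) hgk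
    have e2 := hf (a⁻¹ * g) (by
      show (0 : ℝ) ≤ val χ (a⁻¹ * g)
      rw [val_mul, val_inv]
      linarith) (a⁻¹ * k) (by
      show (0 : ℝ) ≤ val χ (a⁻¹ * k)
      rw [val_mul, val_inv]
      linarith) (by simpa using hgk)
    simp only [mul_inv_cancel_left] at e2
    rw [← e1]
    exact e2

end Pool.Agent.Lib.MP_b1a3a4_al.MVS.HO.H48
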